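import Mathlib
import Pool.Agent.H858R2.Final

/-!
# Positivity of the curvature operator of the second kind is not preserved by the Ricci flow

There is a maximal Ricci flow `g(t)`, `t ∈ [0, T)`, on the closed manifold `S⁵` such that `g(0)` has positive
curvature operator of the second kind and `g(t)` does not, for some `t ∈ (0, T)`.

The definitions are in `Pool.Agent.H858R2.Defs` (`Metric`, `R4`, `RV`, `second`, `PosSecond`, `ctarget`, `ctrn`),
`Pool.Agent.H858R2.G1Def` (`S5`), `Pool.Agent.H858R2.Max` (`tint`, `RicciFlow`, `MaximalRicciFlow`) and
`Pool.Agent.QTot.Defs` (`pd`, `Gam`, `Ric`, `Jac`), `Pool.Agent.QTot.N2` (`Rm`).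

Idea of the proof: on `S⁵ ⊂ ℝ³ × ℝ³` consider the `O(3) × O(3)`-invariant metrics
`U |dz|² + V |dy|² + W (z·dz)²`, `U, V, W` functions of `s = |z|²`. The Ricci flow is an explicit parabolic system for
`(U, V, W)`. For `U = 1 + (323/1000) s`, `V = 69/125 + (37037/125000) s + (18963/125000) s² - δ s (1-s)`,
`W = 1/8 + (18963/125000 + δ) s` and small `δ > 0` the curvature operator of the second kind is positive, but for
`δ = 0` it has a kernel at the points with `z = 0` (spanned by `diag(2,2,2,-3,-3)`), and its value on that tensor has
negative time derivative. Short-time existence, uniform in `δ`, is proved by a contraction argument in an algebra of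
power series in `s` with radius of convergence `> 1`.
-/

set_option autoImplicit false

namespace Pool.Agent.Results.MP_a23110_gt.NotPreserved

open Pool.Agent.H858R2

/-- Positivity of the curvature operator of the second kind is not preserved by the Ricci flow on
closed manifolds: there is a maximal Ricci flow `g(t)`, `t ∈ [0, T)`, on `S⁵` with `g(0)` of positive
curvature operator of the second kind, and a time `t ∈ (0, T)` at which `g(t)` does not have
positive curvature operator of the second kind. -/
theorem result : ∃ (T : EReal) (g : ℝ → Metric 5 S5), MaximalRicciFlow T g ∧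
    PosSecond (g 0) ∧ ∃ t : ℝ, 0 < t ∧ (t : EReal) < T ∧ ¬ PosSecond (g t) :=
  not_preserved

end Pool.Agent.Results.MP_a23110_gt.NotPreserved
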